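import Mathlib

set_option autoImplicit false

namespace Pool.Agent.P.MP_95c763_co

open Finset

/-- B is a Steiner triple system on the point set V: its members are 3-element subsets of V and
every two distinct points of V lie in exactly one member. -/
def IsSTS {α : Type} (V : Finset α) (B : Finset (Finset α)) : Prop :=
  (∀ b ∈ B, b ⊆ V ∧ b.card = 3) ∧
    ∀ x ∈ V, ∀ y ∈ V, x ≠ y → ∃! b : Finset α, b ∈ B ∧ x ∈ b ∧ y ∈ b

/-- D is a defining set of the system B on V: D is contained in B, and B is the only Steiner
triple system on V that contains D. -/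
def IsDefiningSet {α : Type} (V : Finset α) (B D : Finset (Finset α)) : Prop :=
  D ⊆ B ∧ ∀ B' : Finset (Finset α), IsSTS V B' → D ⊆ B' → B' = B

/-- The smallest size of a defining set of B. -/
noncomputable def minDefining {α : Type} (V : Finset α) (B : Finset (Finset α)) : ℕ :=
  sInf {k : ℕ | ∃ D : Finset (Finset α), IsDefiningSet V B D ∧ D.card = k}

/-- The points of PG(n,2): the nonzero vectors of length n+1 over the field with 2 elements. -/
def projPoints (n : ℕ) : Finset (Fin (n + 1) → ZMod 2) :=
  Finset.univ.filter (fun x => x ≠ 0)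

/-- The lines of PG(n,2): the triples x, y, x+y with x, y distinct and nonzero. -/
def projLines (n : ℕ) : Finset (Finset (Fin (n + 1) → ZMod 2)) :=
  (Finset.univ.filter
    (fun p : (Fin (n + 1) → ZMod 2) × (Fin (n + 1) → ZMod 2) =>
      p.1 ≠ 0 ∧ p.2 ≠ 0 ∧ p.1 ≠ p.2)).image (fun p => {p.1, p.2, p.1 + p.2})

/-- The lines of AG(n,3): the triples x, y, z of distinct vectors with x+y+z = 0, written with
z = -(x+y) and x different from y. -/
def affLines (n : ℕ) : Finset (Finset (Fin n → ZMod 3)) :=
  (Finset.univ.filter
    (fun p : (Fin n → ZMod 3) × (Fin n → ZMod 3) => p.1 ≠ p.2)).image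
      (fun p => {p.1, p.2, -(p.1 + p.2)})

/-- The largest size of a corner-free subset of G × G. -/
noncomputable def cornerNum (G : Type) [AddCommGroup G] : ℕ :=
  sSup {k : ℕ | ∃ S : Finset (G × G), IsCornerFree (S : Set (G × G)) ∧ S.card = k}

/-- The corner capacity of Z/q: the supremum over m ≥ 1 of the m-th root of the largest size of
a corner-free subset of G × G for G the group of vectors of length m over Z/q. -/
noncomputable def cornerCap (q : ℕ) : ℝ :=
  ⨆ m : ℕ, (cornerNum (Fin (m + 1) → ZMod q) : ℝ) ^ ((1 : ℝ) / ((m : ℝ) + 1))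

end Pool.Agent.P.MP_95c763_co
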