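import Mathlib
import Pool.Agent.P.MP_95c763_co.Defs

set_option autoImplicit false

namespace Pool.Agent.P.MP_95c763_co

open Finset

section general

variable {α : Type} [DecidableEq α]

lemma IsSTS.eq_of_pair {V : Finset α} {B : Finset (Finset α)} (hB : IsSTS V B)
    {b c : Finset α} (hb : b ∈ B) (hc : c ∈ B) {x y : α} (hxy : x ≠ y)
    (hxb : x ∈ b) (hyb : y ∈ b) (hxc : x ∈ c) (hyc : y ∈ c) : b = c := by
  obtain ⟨d, -, hd⟩ := hB.2 x ((hB.1 b hb).1 hxb) y ((hB.1 b hb).1 hyb) hxy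
  rw [hd b ⟨hb, hxb, hyb⟩, hd c ⟨hc, hxc, hyc⟩]

lemma IsSTS.eq_of_subset {V : Finset α} {B B' : Finset (Finset α)} (hB : IsSTS V B)
    (hB' : IsSTS V B') (h : B' ⊆ B) : B' = B := by
  refine Finset.Subset.antisymm h fun b hb => ?_
  obtain ⟨x, y, z, hxy, -, -, rfl⟩ := Finset.card_eq_three.1 (hB.1 b hb).2
  have hx : x ∈ ({x, y, z} : Finset α) := by simp
  have hy : y ∈ ({x, y, z} : Finset α) := by simp
  obtain ⟨c, ⟨hc, hxc, hyc⟩, -⟩ := hB'.2 x ((hB.1 _ hb).1 hx) y ((hB.1 _ hb).1 hy) hxy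
  rw [hB.eq_of_pair hb (h hc) hxy hx hy hxc hyc]
  exact hc

lemma trade {V : Finset α} {B T T' : Finset (Finset α)} (hB : IsSTS V B) (hT : T ⊆ B)
    (h3 : ∀ t ∈ T', t ⊆ V ∧ t.card = 3)
    (hcov : ∀ x y, x ≠ y → ((∃ t ∈ T, x ∈ t ∧ y ∈ t) ↔ ∃ t ∈ T', x ∈ t ∧ y ∈ t))
    (huniq : ∀ x y, x ≠ y → ∀ t ∈ T', ∀ t' ∈ T', x ∈ t → y ∈ t → x ∈ t' → y ∈ t' → t = t') :
    IsSTS V ((B \ T) ∪ T') := by
  refine ⟨fun b hb => ?_, fun x hx y hy hxy => ?_⟩
  · rcases Finset.mem_union.1 hb with hb | hb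
    · exact hB.1 b (Finset.mem_sdiff.1 hb).1
    · exact h3 b hb
  · obtain ⟨b, ⟨hb, hxb, hyb⟩, hbu⟩ := hB.2 x hx y hy hxy
    by_cases hbT : b ∈ T
    · obtain ⟨t, ht, hxt, hyt⟩ := (hcov x y hxy).1 ⟨b, hbT, hxb, hyb⟩
      refine ⟨t, ⟨Finset.mem_union_right _ ht, hxt, hyt⟩, ?_⟩
      rintro c ⟨hc, hxc, hyc⟩
      rcases Finset.mem_union.1 hc with hc | hc
      · have := hbu c ⟨(Finset.mem_sdiff.1 hc).1, hxc, hyc⟩
        exact absurd (this ▸ hbT) (Finset.mem_sdiff.1 hc).2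
      · exact huniq x y hxy c hc t ht hxc hyc hxt hyt
    · refine ⟨b, ⟨Finset.mem_union_left _ (Finset.mem_sdiff.2 ⟨hb, hbT⟩), hxb, hyb⟩, ?_⟩
      rintro c ⟨hc, hxc, hyc⟩
      rcases Finset.mem_union.1 hc with hc | hc
      · exact hbu c ⟨(Finset.mem_sdiff.1 hc).1, hxc, hyc⟩
      · obtain ⟨t, ht, hxt, hyt⟩ := (hcov x y hxy).2 ⟨c, hc, hxc, hyc⟩
        have := hbu t ⟨hT ht, hxt, hyt⟩
        exact absurd (this ▸ ht) hbT

end general

/-- A copy of the addition table of H inside a triple system. -/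
structure Frame {α : Type} [DecidableEq α] (H : Type) [AddCommGroup H]
    (B : Finset (Finset α)) where
  r : H → α
  c : H → α
  s : H → α
  r_inj : Function.Injective r
  c_inj : Function.Injective c
  s_inj : Function.Injective s
  rc : ∀ x y, r x ≠ c y
  rs : ∀ x y, r x ≠ s y
  cs : ∀ x y, c x ≠ s y
  mem : ∀ x y, ({r x, c y, s (x + y)} : Finset α) ∈ B

namespace Frame

variable {α : Type} [DecidableEq α] {H : Type} [AddCommGroup H] {B : Finset (Finset α)}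
  (F : Frame H B)

def tri (x y z : H) : Finset α := {F.r x, F.c y, F.s z}

def blk (p : H × H) : Finset α := F.tri p.1 p.2 (p.1 + p.2)

lemma blk_mem (p : H × H) : F.blk p ∈ B := F.mem p.1 p.2

@[simp] lemma r_mem_tri (a x y z : H) : F.r a ∈ F.tri x y z ↔ a = x := by
  simp [tri, F.r_inj.eq_iff, F.rc, F.rs]

@[simp] lemma c_mem_tri (a x y z : H) : F.c a ∈ F.tri x y z ↔ a = y := by
  simp [tri, F.c_inj.eq_iff, (F.rc _ _).symm, F.cs]

@[simp] lemma s_mem_tri (a x y z : H) : F.s a ∈ F.tri x y z ↔ a = z := by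
  simp [tri, F.s_inj.eq_iff, (F.rs _ _).symm, (F.cs _ _).symm]

lemma mem_tri {u : α} {x y z : H} :
    u ∈ F.tri x y z ↔ u = F.r x ∨ u = F.c y ∨ u = F.s z := by
  simp [tri]

lemma card_tri (x y z : H) : (F.tri x y z).card = 3 := by
  unfold tri
  rw [Finset.card_eq_three]
  exact ⟨_, _, _, F.rc _ _, F.rs _ _, F.cs _ _, rfl⟩

lemma blk_inj : Function.Injective F.blk := by
  rintro ⟨x, y⟩ ⟨x', y'⟩ h
  have h1 : F.r x ∈ F.blk (x', y') := h ▸ (by simp [blk])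
  have h2 : F.c y ∈ F.blk (x', y') := h ▸ (by simp [blk])
  simp only [blk, r_mem_tri, c_mem_tri] at h1 h2
  rw [h1, h2]

/-- a pair of distinct points inside a typed triple -/
lemma pair_cases {u v : α} {x y z : H} (huv : u ≠ v) (hu : u ∈ F.tri x y z)
    (hv : v ∈ F.tri x y z) :
    (u = F.r x ∧ v = F.c y) ∨ (u = F.c y ∧ v = F.r x) ∨ (u = F.r x ∧ v = F.s z) ∨
      (u = F.s z ∧ v = F.r x) ∨ (u = F.c y ∧ v = F.s z) ∨ (u = F.s z ∧ v = F.c y) := by
  rcases F.mem_tri.1 hu with rfl | rfl | rfl <;> rcases F.mem_tri.1 hv with h | h | h <;>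
    simp_all

/-- blocks of a completion that are new are typed triples all of whose pairs come from S -/
lemma typed {V : Finset α} (hB : IsSTS V B) (S : Finset (H × H)) {B' : Finset (Finset α)}
    (hB' : IsSTS V B') (hD : B \ S.image F.blk ⊆ B') {b : Finset α} (hb : b ∈ B')
    (hbD : b ∉ B \ S.image F.blk) :
    ∃ x y z : H, b = F.tri x y z ∧ (x, y) ∈ S ∧ (x, z - x) ∈ S ∧ (z - y, y) ∈ S := by
  have key : ∀ u ∈ b, ∀ v ∈ b, u ≠ v → ∃ p ∈ S, u ∈ F.blk p ∧ v ∈ F.blk p := by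
    intro u hu v hv huv
    obtain ⟨d, ⟨hd, hud, hvd⟩, -⟩ := hB.2 u ((hB'.1 b hb).1 hu) v ((hB'.1 b hb).1 hv) huv
    by_cases hdS : d ∈ S.image F.blk
    · obtain ⟨p, hp, rfl⟩ := Finset.mem_image.1 hdS
      exact ⟨p, hp, hud, hvd⟩
    · have hd' : d ∈ B' := hD (Finset.mem_sdiff.2 ⟨hd, hdS⟩)
      have := hB'.eq_of_pair hb hd' huv hu hv hud hvd
      exact absurd (this ▸ Finset.mem_sdiff.2 ⟨hd, hdS⟩) hbD
  have fin : ∀ x y z : H, F.r x ∈ b → F.c y ∈ b → F.s z ∈ b →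
      ∃ x y z : H, b = F.tri x y z ∧ (x, y) ∈ S ∧ (x, z - x) ∈ S ∧ (z - y, y) ∈ S := by
    intro x y z hx hy hz
    obtain ⟨⟨x1, y1⟩, h1, a1, b1⟩ := key _ hx _ hy (F.rc _ _)
    obtain ⟨⟨x2, y2⟩, h2, a2, b2⟩ := key _ hx _ hz (F.rs _ _)
    obtain ⟨⟨x3, y3⟩, h3, a3, b3⟩ := key _ hy _ hz (F.cs _ _)
    simp only [blk, r_mem_tri, c_mem_tri, s_mem_tri] at a1 b1 a2 b2 a3 b3
    subst a1 b1 a2 a3
    refine ⟨x, y, z, ?_, h1, ?_, ?_⟩
    · have hsub : F.tri x y z ⊆ b := by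
        intro u hu
        rcases F.mem_tri.1 hu with rfl | rfl | rfl
        · exact hx
        · exact hy
        · exact hz
      exact (Finset.eq_of_subset_of_card_le hsub
        (by rw [(hB'.1 b hb).2]; exact (F.card_tri _ _ _).ge)).symm
    · have : z - x = y2 := by rw [b2]; abel
      rwa [this]
    · have : z - y = x3 := by rw [b3]; abel
      rwa [this]
  obtain ⟨u, v, w, huv, huw, hvw, hbe⟩ := Finset.card_eq_three.1 (hB'.1 b hb).2
  have hu : u ∈ b := by rw [hbe]; simp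
  have hv : v ∈ b := by rw [hbe]; simp
  have hw : w ∈ b := by rw [hbe]; simp
  clear hbe
  obtain ⟨p1, -, a1, b1⟩ := key u hu v hv huv
  obtain ⟨p2, -, a2, b2⟩ := key u hu w hw huw
  obtain ⟨p3, -, a3, b3⟩ := key v hv w hw hvw
  have hrc := F.rc
  have hrs := F.rs
  have hcs := F.cs
  rcases F.pair_cases huv a1 b1 with ⟨e1, e2⟩ | ⟨e1, e2⟩ | ⟨e1, e2⟩ | ⟨e1, e2⟩ | ⟨e1, e2⟩ |
      ⟨e1, e2⟩ <;>
    rcases F.pair_cases huw a2 b2 with ⟨e3, e4⟩ | ⟨e3, e4⟩ | ⟨e3, e4⟩ | ⟨e3, e4⟩ | ⟨e3, e4⟩ |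
      ⟨e3, e4⟩ <;>
    rcases F.pair_cases hvw a3 b3 with ⟨e5, e6⟩ | ⟨e5, e6⟩ | ⟨e5, e6⟩ | ⟨e5, e6⟩ | ⟨e5, e6⟩ |
      ⟨e5, e6⟩ <;>
    first
      | exact absurd (e1.symm.trans e3) (hrc _ _)
      | exact absurd (e3.symm.trans e1) (hrc _ _)
      | exact absurd (e1.symm.trans e3) (hrs _ _)
      | exact absurd (e3.symm.trans e1) (hrs _ _)
      | exact absurd (e1.symm.trans e3) (hcs _ _)
      | exact absurd (e3.symm.trans e1) (hcs _ _)
      | exact absurd (e2.symm.trans e5) (hrc _ _)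
      | exact absurd (e5.symm.trans e2) (hrc _ _)
      | exact absurd (e2.symm.trans e5) (hrs _ _)
      | exact absurd (e5.symm.trans e2) (hrs _ _)
      | exact absurd (e2.symm.trans e5) (hcs _ _)
      | exact absurd (e5.symm.trans e2) (hcs _ _)
      | exact absurd (e4.symm.trans e6) (hrc _ _)
      | exact absurd (e6.symm.trans e4) (hrc _ _)
      | exact absurd (e4.symm.trans e6) (hrs _ _)
      | exact absurd (e6.symm.trans e4) (hrs _ _)
      | exact absurd (e4.symm.trans e6) (hcs _ _)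
      | exact absurd (e6.symm.trans e4) (hcs _ _)
      | exact fin _ _ _ (e1 ▸ hu) (e2 ▸ hv) (e4 ▸ hw)
      | exact fin _ _ _ (e2 ▸ hv) (e1 ▸ hu) (e4 ▸ hw)
      | exact fin _ _ _ (e1 ▸ hu) (e4 ▸ hw) (e2 ▸ hv)
      | exact fin _ _ _ (e2 ▸ hv) (e4 ▸ hw) (e1 ▸ hu)
      | exact fin _ _ _ (e4 ▸ hw) (e1 ▸ hu) (e2 ▸ hv)
      | exact fin _ _ _ (e4 ▸ hw) (e2 ▸ hv) (e1 ▸ hu)

end Frame

/-- A set of cells of the addition table of H is rigid if its row-column, row-symbol and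
column-symbol pairs can be matched into triples in only one way. -/
def Rigid {H : Type} [AddCommGroup H] (S : Finset (H × H)) : Prop :=
  ∀ p q t : Equiv.Perm S, (∀ i, (p i).1.1 = (q i).1.1) → (∀ i, (p i).1.2 = (t i).1.2) →
    (∀ i, (q i).1.1 + (q i).1.2 = (t i).1.1 + (t i).1.2) → ∀ i, (p i).1.1 = (t i).1.1

lemma rigid_of_cornerFree {H : Type} [AddCommGroup H] {S : Finset (H × H)}
    (hS : IsCornerFree (S : Set (H × H))) : Rigid S := by
  intro p q t h1 h2 h3 i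
  refine hS (y₁ := (p i).1.2) (y₂ := (q i).1.2) ⟨(p i).2, ?_, ?_, ?_⟩
  · rw [h1 i]; exact (q i).2
  · rw [h2 i]; exact (t i).2
  · rw [h1 i, h2 i, h3 i]

namespace Frame

variable {α : Type} [DecidableEq α] {H : Type} [AddCommGroup H] {B : Finset (Finset α)}
  (F : Frame H B)

theorem defining_of_rigid {V : Finset α} (hB : IsSTS V B) (S : Finset (H × H))
    (hS : Rigid S) : IsDefiningSet V B (B \ S.image F.blk) := by
  classical
  refine ⟨Finset.sdiff_subset, fun B' hB' hD => ?_⟩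
  have hz : ∀ p : S, ∃ z : H, F.tri p.1.1 p.1.2 z ∈ B' ∧ (p.1.1, z - p.1.1) ∈ S ∧
      (z - p.1.2, p.1.2) ∈ S := by
    rintro ⟨⟨x, y⟩, hp⟩
    have hx : F.r x ∈ F.blk (x, y) := by simp [blk]
    have hy : F.c y ∈ F.blk (x, y) := by simp [blk]
    obtain ⟨b, ⟨hb, hxb, hyb⟩, -⟩ := hB'.2 _ ((hB.1 _ (F.blk_mem (x, y))).1 hx) _
      ((hB.1 _ (F.blk_mem (x, y))).1 hy) (F.rc x y)
    have hbD : b ∉ B \ S.image F.blk := by
      intro h
      have := hB.eq_of_pair (Finset.mem_sdiff.1 h).1 (F.blk_mem (x, y)) (F.rc x y) hxb hyb hx hy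
      exact (Finset.mem_sdiff.1 h).2 (this ▸ Finset.mem_image_of_mem _ hp)
    obtain ⟨x', y', z, rfl, -, h2, h3⟩ := F.typed hB S hB' hD hb hbD
    simp only [r_mem_tri, c_mem_tri] at hxb hyb
    subst hxb hyb
    exact ⟨z, hb, h2, h3⟩
  choose z hz1 hz2 hz3 using hz
  let f2 : S → S := fun p => ⟨(p.1.1, z p - p.1.1), hz2 p⟩
  let f3 : S → S := fun p => ⟨(z p - p.1.2, p.1.2), hz3 p⟩
  have i2 : Function.Injective f2 := by
    intro p p' h
    have h' : (p.1.1, z p - p.1.1) = (p'.1.1, z p' - p'.1.1) := congrArg Subtype.val h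
    obtain ⟨e1, e2⟩ := Prod.ext_iff.1 h'
    simp only at e1 e2
    have e3 : z p = z p' := by rw [e1] at e2; exact sub_left_injective e2
    have := hB'.eq_of_pair (hz1 p) (hz1 p') (F.rs p.1.1 (z p)) (by simp) (by simp)
      (by simp [e1]) (by simp [e3])
    have hc : F.c p.1.2 ∈ F.tri p'.1.1 p'.1.2 (z p') := this ▸ (by simp)
    exact Subtype.ext (Prod.ext e1 (by simpa using hc))
  have i3 : Function.Injective f3 := by
    intro p p' h
    have h' : (z p - p.1.2, p.1.2) = (z p' - p'.1.2, p'.1.2) := congrArg Subtype.val h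
    obtain ⟨e1, e2⟩ := Prod.ext_iff.1 h'
    simp only at e1 e2
    have e3 : z p = z p' := by rw [e2] at e1; exact sub_left_injective e1
    have := hB'.eq_of_pair (hz1 p) (hz1 p') (F.cs p.1.2 (z p)) (by simp) (by simp)
      (by simp [e2]) (by simp [e3])
    have hc : F.r p.1.1 ∈ F.tri p'.1.1 p'.1.2 (z p') := this ▸ (by simp)
    exact Subtype.ext (Prod.ext (by simpa using hc) e2)
  have key := hS 1 (Equiv.ofBijective f2 (Finite.injective_iff_bijective.1 i2))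
    (Equiv.ofBijective f3 (Finite.injective_iff_bijective.1 i3)) (fun i => rfl) (fun i => rfl)
    (fun i => by
      change i.1.1 + (z i - i.1.1) = z i - i.1.2 + i.1.2
      abel)
  refine (hB'.eq_of_subset hB fun b hb => ?_).symm
  by_cases hbS : b ∈ S.image F.blk
  · obtain ⟨p, hp, rfl⟩ := Finset.mem_image.1 hbS
    have e : p.1 = z ⟨p, hp⟩ - p.2 := key ⟨p, hp⟩
    have e' : z ⟨p, hp⟩ = p.1 + p.2 := by rw [e]; abel
    have := hz1 ⟨p, hp⟩
    rw [e'] at this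
    exact this
  · exact hD (Finset.mem_sdiff.2 ⟨hb, hbS⟩)

theorem rigid_of_defining {V : Finset α} (hB : IsSTS V B) {D : Finset (Finset α)}
    (hD : IsDefiningSet V B D) (S : Finset (H × H)) (hS : ∀ p ∈ S, F.blk p ∉ D) : Rigid S := by
  classical
  intro p q t h1 h2 h3
  let τ : S → Finset α := fun i => F.tri (p i).1.1 (p i).1.2 ((q i).1.1 + (q i).1.2)
  have hV : ∀ x y : H, F.r x ∈ V ∧ F.c y ∈ V ∧ F.s (x + y) ∈ V := fun x y =>
    ⟨(hB.1 _ (F.blk_mem (x, y))).1 (by simp [blk]), (hB.1 _ (F.blk_mem (x, y))).1 (by simp [blk]),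
      (hB.1 _ (F.blk_mem (x, y))).1 (by simp [blk])⟩
  have hsts : IsSTS V ((B \ S.image F.blk) ∪ Finset.univ.image τ) := by
    refine trade hB ?_ ?_ ?_ ?_
    · intro b hb
      obtain ⟨a, -, rfl⟩ := Finset.mem_image.1 hb
      exact F.blk_mem a
    · intro b hb
      obtain ⟨i, -, rfl⟩ := Finset.mem_image.1 hb
      refine ⟨fun u hu => ?_, F.card_tri _ _ _⟩
      rcases F.mem_tri.1 hu with rfl | rfl | rfl
      · exact (hV _ 0).1
      · exact (hV 0 _).2.1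
      · exact (hV _ _).2.2
    · intro u v huv
      constructor
      · rintro ⟨b, hb, hu, hv⟩
        obtain ⟨a, ha, rfl⟩ := Finset.mem_image.1 hb
        have m1 : τ (p.symm ⟨a, ha⟩) ∈ Finset.univ.image τ := Finset.mem_image_of_mem _ (by simp)
        have m2 : τ (q.symm ⟨a, ha⟩) ∈ Finset.univ.image τ := Finset.mem_image_of_mem _ (by simp)
        have m3 : τ (t.symm ⟨a, ha⟩) ∈ Finset.univ.image τ := Finset.mem_image_of_mem _ (by simp)
        rcases F.pair_cases huv hu hv with ⟨rfl, rfl⟩ | ⟨rfl, rfl⟩ | ⟨rfl, rfl⟩ | ⟨rfl, rfl⟩ |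
          ⟨rfl, rfl⟩ | ⟨rfl, rfl⟩
        · exact ⟨_, m1, by simp [τ], by simp [τ]⟩
        · exact ⟨_, m1, by simp [τ], by simp [τ]⟩
        · exact ⟨_, m2, by simp [τ, h1], by simp [τ]⟩
        · exact ⟨_, m2, by simp [τ], by simp [τ, h1]⟩
        · exact ⟨_, m3, by simp [τ, h2], by simp [τ, h3]⟩
        · exact ⟨_, m3, by simp [τ, h3], by simp [τ, h2]⟩
      · rintro ⟨b, hb, hu, hv⟩
        obtain ⟨i, -, rfl⟩ := Finset.mem_image.1 hb
        have m1 : F.blk (p i).1 ∈ S.image F.blk := Finset.mem_image_of_mem _ (p i).2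
        have m2 : F.blk (q i).1 ∈ S.image F.blk := Finset.mem_image_of_mem _ (q i).2
        have m3 : F.blk (t i).1 ∈ S.image F.blk := Finset.mem_image_of_mem _ (t i).2
        rcases F.pair_cases huv hu hv with ⟨rfl, rfl⟩ | ⟨rfl, rfl⟩ | ⟨rfl, rfl⟩ | ⟨rfl, rfl⟩ |
          ⟨rfl, rfl⟩ | ⟨rfl, rfl⟩
        · exact ⟨_, m1, by simp [blk], by simp [blk]⟩
        · exact ⟨_, m1, by simp [blk], by simp [blk]⟩
        · exact ⟨_, m2, by simp [blk, h1], by simp [blk]⟩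
        · exact ⟨_, m2, by simp [blk], by simp [blk, h1]⟩
        · exact ⟨_, m3, by simp [blk, h2], by simp [blk, h3]⟩
        · exact ⟨_, m3, by simp [blk, h3], by simp [blk, h2]⟩
    · intro u v huv b hb b' hb' hu hv hu' hv'
      obtain ⟨i, -, rfl⟩ := Finset.mem_image.1 hb
      obtain ⟨j, -, rfl⟩ := Finset.mem_image.1 hb'
      have a1 : (p i).1.1 = (p j).1.1 → (p i).1.2 = (p j).1.2 → τ i = τ j := fun e1 e2 => by
        rw [p.injective (Subtype.ext (Prod.ext e1 e2))]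
      have a2 : (p i).1.1 = (p j).1.1 →
          (q i).1.1 + (q i).1.2 = (q j).1.1 + (q j).1.2 → τ i = τ j := fun e1 e2 => by
        rw [h1, h1] at e1
        rw [e1] at e2
        rw [q.injective (Subtype.ext (Prod.ext e1 (add_left_cancel e2)))]
      have a3 : (p i).1.2 = (p j).1.2 →
          (q i).1.1 + (q i).1.2 = (q j).1.1 + (q j).1.2 → τ i = τ j := fun e1 e2 => by
        rw [h2, h2] at e1
        rw [h3, h3, e1] at e2
        rw [t.injective (Subtype.ext (Prod.ext (add_right_cancel e2) e1))]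
      rcases F.pair_cases huv hu hv with ⟨rfl, rfl⟩ | ⟨rfl, rfl⟩ | ⟨rfl, rfl⟩ | ⟨rfl, rfl⟩ |
          ⟨rfl, rfl⟩ | ⟨rfl, rfl⟩
      · exact a1 (by simpa [τ] using hu') (by simpa [τ] using hv')
      · exact a1 (by simpa [τ] using hv') (by simpa [τ] using hu')
      · exact a2 (by simpa [τ] using hu') (by simpa [τ] using hv')
      · exact a2 (by simpa [τ] using hv') (by simpa [τ] using hu')
      · exact a3 (by simpa [τ] using hu') (by simpa [τ] using hv')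
      · exact a3 (by simpa [τ] using hv') (by simpa [τ] using hu')
  have hsub : D ⊆ (B \ S.image F.blk) ∪ Finset.univ.image τ := by
    intro b hb
    refine Finset.mem_union_left _ (Finset.mem_sdiff.2 ⟨hD.1 hb, fun h => ?_⟩)
    obtain ⟨a, ha, rfl⟩ := Finset.mem_image.1 h
    exact hS a ha hb
  have heq := hD.2 _ hsts hsub
  intro i
  have hτ : τ i ∈ B := by
    rw [← heq]
    exact Finset.mem_union_right _ (Finset.mem_image_of_mem _ (by simp))
  have := hB.eq_of_pair hτ (F.blk_mem (p i).1) (F.rc (p i).1.1 (p i).1.2) (by simp [τ])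
    (by simp [τ]) (by simp [blk]) (by simp [blk])
  have hs : F.s ((q i).1.1 + (q i).1.2) ∈ F.blk (p i).1 := this ▸ (by simp [τ])
  simp only [blk, s_mem_tri] at hs
  rw [h3, ← h2] at hs
  exact (add_right_cancel hs).symm

end Frame

end Pool.Agent.P.MP_95c763_co
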