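import Mathlib
import Pool.Agent.P.MP_95c763_co.Trade

set_option autoImplicit false

namespace Pool.Agent.P.MP_95c763_co

open Finset Filter Topology

section cornerNum

variable {G G' : Type} [AddCommGroup G] [AddCommGroup G']

lemma corner_bdd [Fintype G] :
    BddAbove {k : ℕ | ∃ S : Finset (G × G), IsCornerFree (S : Set (G × G)) ∧ S.card = k} := by
  refine ⟨Fintype.card (G × G), ?_⟩
  rintro k ⟨S, -, rfl⟩
  exact Finset.card_le_univ S

lemma cornerFree_empty : IsCornerFree ((∅ : Finset (G × G)) : Set (G × G)) := by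
  intro x₁ y₁ x₂ y₂ h
  exact absurd h.fst_fst_mem (by simp)

lemma le_cornerNum [Fintype G] {S : Finset (G × G)} (hS : IsCornerFree (S : Set (G × G))) :
    S.card ≤ cornerNum G :=
  le_csSup corner_bdd ⟨S, hS, rfl⟩

lemma exists_cornerNum (G : Type) [AddCommGroup G] [Fintype G] :
    ∃ S : Finset (G × G), IsCornerFree (S : Set (G × G)) ∧ S.card = cornerNum G :=
  Nat.sSup_mem (s := {k : ℕ | ∃ S : Finset (G × G), IsCornerFree (S : Set (G × G)) ∧ S.card = k})
    ⟨0, ∅, cornerFree_empty, rfl⟩ corner_bdd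

lemma cornerNum_le_sq (G : Type) [AddCommGroup G] [Fintype G] :
    cornerNum G ≤ Fintype.card G ^ 2 := by
  obtain ⟨S, -, h⟩ := exists_cornerNum G
  rw [← h, sq, ← Fintype.card_prod]
  exact Finset.card_le_univ S

lemma one_le_cornerNum (G : Type) [AddCommGroup G] [Fintype G] : 1 ≤ cornerNum G := by
  have : IsCornerFree ((({(0, 0)} : Finset (G × G))) : Set (G × G)) := by
    intro x₁ y₁ x₂ y₂ h
    have h1 := h.fst_fst_mem
    have h2 := h.snd_fst_mem
    simp only [Finset.coe_singleton, Set.mem_singleton_iff, Prod.mk.injEq] at h1 h2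
    rw [h1.1, h2.1]
  simpa using le_cornerNum this

lemma cornerNum_mono [Fintype G] [Fintype G'] (f : G →+ G') (hf : Function.Injective f) :
    cornerNum G ≤ cornerNum G' := by
  classical
  obtain ⟨S, hS, h⟩ := exists_cornerNum G
  have hi : Function.Injective (Prod.map f f) := hf.prodMap hf
  rw [← h, ← Finset.card_image_of_injective S hi]
  refine le_cornerNum ?_
  intro x₁ y₁ x₂ y₂ hc
  obtain ⟨⟨a, b⟩, ha, e1⟩ := Finset.mem_image.1 (Finset.mem_coe.1 hc.fst_fst_mem)
  obtain ⟨⟨a', b'⟩, ha', e2⟩ := Finset.mem_image.1 (Finset.mem_coe.1 hc.fst_snd_mem)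
  obtain ⟨⟨a'', b''⟩, ha'', e3⟩ := Finset.mem_image.1 (Finset.mem_coe.1 hc.snd_fst_mem)
  simp only [Prod.map, Prod.mk.injEq] at e1 e2 e3
  have h1 : a' = a := hf (e2.1.trans e1.1.symm)
  have h2 : b'' = b := hf (e3.2.trans e1.2.symm)
  subst h1 h2
  have h3 : a' + b' = a'' + b'' := by
    apply hf
    rw [map_add, map_add, e1.1, e2.2, e3.1, e1.2]
    exact hc.add_eq_add
  have := hS ⟨ha, ha', ha'', h3⟩
  rw [← e1.1, ← e3.1, this]

lemma cornerNum_pow_le [Fintype G] (ι : Type) [Fintype ι] [DecidableEq ι] :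
    cornerNum G ^ Fintype.card ι ≤ cornerNum (ι → G) := by
  classical
  obtain ⟨S, hS, h⟩ := exists_cornerNum G
  let φ : (ι → G × G) → (ι → G) × (ι → G) := fun u => (fun i => (u i).1, fun i => (u i).2)
  have hφ : Function.Injective φ := by
    intro u v huv
    funext i
    exact Prod.ext (congrFun (congrArg Prod.fst huv) i) (congrFun (congrArg Prod.snd huv) i)
  have hc : ((Fintype.piFinset fun _ : ι => S).image φ).card = cornerNum G ^ Fintype.card ι := by
    rw [Finset.card_image_of_injective _ hφ, Fintype.card_piFinset, Finset.prod_const, h]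
    rfl
  rw [← hc]
  refine le_cornerNum ?_
  have key : ∀ x y : ι → G, (x, y) ∈ (Fintype.piFinset fun _ : ι => S).image φ →
      ∀ i, (x i, y i) ∈ S := by
    intro x y hxy i
    obtain ⟨u, hu, e⟩ := Finset.mem_image.1 hxy
    have e1 : (u i).1 = x i := congrFun (congrArg Prod.fst e) i
    have e2 : (u i).2 = y i := congrFun (congrArg Prod.snd e) i
    rw [← e1, ← e2]
    exact Fintype.mem_piFinset.1 hu i
  intro x₁ y₁ x₂ y₂ hc
  funext i
  exact hS ⟨key _ _ hc.fst_fst_mem i, key _ _ hc.fst_snd_mem i, key _ _ hc.snd_fst_mem i,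
    congrFun hc.add_eq_add i⟩

/-- the permutation trick of uniquely solvable puzzles -/
lemma factorial_le_cornerNum [Fintype G] [DecidableEq G] {S : Finset (G × G)} (hS : Rigid S) :
    (S.card).factorial ≤ cornerNum (S → G) := by
  classical
  let φ : Equiv.Perm S → (S → G) × (S → G) := fun p => (fun i => (p i).1.1, fun i => (p i).1.2)
  have hφ : Function.Injective φ := by
    intro u v huv
    ext i
    · exact congrFun (congrArg Prod.fst huv) i
    · exact congrFun (congrArg Prod.snd huv) i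
  have hc : (Finset.univ.image φ).card = (S.card).factorial := by
    rw [Finset.card_image_of_injective _ hφ, Finset.card_univ, Fintype.card_perm, Fintype.card_coe]
  rw [← hc]
  refine le_cornerNum ?_
  intro x₁ y₁ x₂ y₂ hc
  obtain ⟨p, -, e1⟩ := Finset.mem_image.1 (Finset.mem_coe.1 hc.fst_fst_mem)
  obtain ⟨q, -, e2⟩ := Finset.mem_image.1 (Finset.mem_coe.1 hc.fst_snd_mem)
  obtain ⟨t, -, e3⟩ := Finset.mem_image.1 (Finset.mem_coe.1 hc.snd_fst_mem)
  have a1 : ∀ i, (p i).1.1 = x₁ i := fun i => congrFun (congrArg Prod.fst e1) i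
  have a2 : ∀ i, (p i).1.2 = y₁ i := fun i => congrFun (congrArg Prod.snd e1) i
  have a3 : ∀ i, (q i).1.1 = x₁ i := fun i => congrFun (congrArg Prod.fst e2) i
  have a4 : ∀ i, (q i).1.2 = y₂ i := fun i => congrFun (congrArg Prod.snd e2) i
  have a5 : ∀ i, (t i).1.1 = x₂ i := fun i => congrFun (congrArg Prod.fst e3) i
  have a6 : ∀ i, (t i).1.2 = y₁ i := fun i => congrFun (congrArg Prod.snd e3) i
  funext i
  rw [← a1, ← a5]
  refine hS p q t (fun i => by rw [a1, a3]) (fun i => by rw [a2, a6]) (fun i => ?_) i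
  rw [a3, a4, a5, a6]
  exact congrFun hc.add_eq_add i

end cornerNum

section cap

variable (q : ℕ) [NeZero q]

lemma cap_bdd : BddAbove (Set.range fun m : ℕ =>
    (cornerNum (Fin (m + 1) → ZMod q) : ℝ) ^ ((1 : ℝ) / ((m : ℝ) + 1))) := by
  refine ⟨(q : ℝ) ^ 2, ?_⟩
  rintro _ ⟨m, rfl⟩
  have h := cornerNum_le_sq (Fin (m + 1) → ZMod q)
  rw [Fintype.card_fun, ZMod.card, Fintype.card_fin] at h
  have h' : (cornerNum (Fin (m + 1) → ZMod q) : ℝ) ≤ ((q : ℝ) ^ 2) ^ (m + 1) := by
    rw [← pow_mul, mul_comm, pow_mul]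
    exact_mod_cast h
  calc (cornerNum (Fin (m + 1) → ZMod q) : ℝ) ^ ((1 : ℝ) / ((m : ℝ) + 1))
      ≤ (((q : ℝ) ^ 2) ^ (m + 1)) ^ ((1 : ℝ) / ((m : ℝ) + 1)) :=
        Real.rpow_le_rpow (by positivity) h' (by positivity)
    _ = (q : ℝ) ^ 2 := by
        rw [one_div, show ((m : ℝ) + 1) = ((m + 1 : ℕ) : ℝ) by push_cast; ring]
        exact Real.pow_rpow_inv_natCast (by positivity) (Nat.succ_ne_zero m)

lemma root_le_cap (m : ℕ) :
    (cornerNum (Fin (m + 1) → ZMod q) : ℝ) ^ ((1 : ℝ) / ((m : ℝ) + 1)) ≤ cornerCap q :=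
  le_ciSup (cap_bdd q) m

lemma root_pow (m : ℕ) (x : ℝ) (hx : 0 ≤ x) :
    (x ^ ((1 : ℝ) / ((m : ℝ) + 1))) ^ (m + 1) = x := by
  rw [one_div, show ((m : ℝ) + 1) = ((m + 1 : ℕ) : ℝ) by push_cast; ring]
  exact Real.rpow_inv_natCast_pow hx (Nat.succ_ne_zero m)

lemma one_le_cap : 1 ≤ cornerCap q := by
  refine le_trans ?_ (root_le_cap q 0)
  refine Real.one_le_rpow ?_ (by positivity)
  exact_mod_cast one_le_cornerNum _

lemma cornerNum_fin_le (m : ℕ) : (cornerNum (Fin m → ZMod q) : ℝ) ≤ cornerCap q ^ m := by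
  rcases m with _ | m
  · have h := cornerNum_le_sq (Fin 0 → ZMod q)
    simp only [Fintype.card_fun, Fintype.card_fin, pow_zero, one_pow] at h
    rw [pow_zero]
    exact_mod_cast h
  · rw [← root_pow m (cornerNum (Fin (m + 1) → ZMod q) : ℝ) (by positivity)]
    exact pow_le_pow_left₀ (by positivity) (root_le_cap q m) _

/-- extension by zero along an injective map of index sets -/
noncomputable def extHom {ι κ : Type} (A : Type) [AddCommGroup A] (e : ι ↪ κ) :
    (ι → A) →+ (κ → A) where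
  toFun x := Function.extend e x 0
  map_zero' := by
    funext k
    by_cases h : ∃ i, e i = k
    · obtain ⟨i, rfl⟩ := h
      rw [e.injective.extend_apply]
      rfl
    · rw [Function.extend_apply' _ _ _ h]
  map_add' x y := by
    funext k
    by_cases h : ∃ i, e i = k
    · obtain ⟨i, rfl⟩ := h
      rw [Pi.add_apply, e.injective.extend_apply, e.injective.extend_apply,
        e.injective.extend_apply]
      rfl
    · rw [Pi.add_apply, Function.extend_apply' _ _ _ h, Function.extend_apply' _ _ _ h,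
        Function.extend_apply' _ _ _ h]
      simp

lemma extHom_inj {ι κ : Type} (A : Type) [AddCommGroup A] (e : ι ↪ κ) :
    Function.Injective (extHom A e) := by
  intro x y h
  funext i
  have : Function.extend e x 0 (e i) = Function.extend e y 0 (e i) := congrFun h (e i)
  rwa [e.injective.extend_apply, e.injective.extend_apply] at this

lemma cornerNum_fun_mono {ι κ : Type} [Fintype ι] [Fintype κ] [DecidableEq ι] [DecidableEq κ]
    (A : Type) [AddCommGroup A] [Fintype A] (h : Fintype.card ι ≤ Fintype.card κ) :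
    cornerNum (ι → A) ≤ cornerNum (κ → A) := by
  obtain ⟨e⟩ := Function.Embedding.nonempty_of_card_le h
  exact cornerNum_mono (extHom A e) (extHom_inj A e)

/-- uncurrying as an additive map -/
def uncurryHom (ι κ A : Type) [AddCommGroup A] : (ι → κ → A) →+ (ι × κ → A) where
  toFun x := fun p => x p.1 p.2
  map_zero' := rfl
  map_add' _ _ := rfl

lemma uncurryHom_inj (ι κ A : Type) [AddCommGroup A] :
    Function.Injective (uncurryHom ι κ A) := by
  intro x y h
  funext i k
  exact congrFun h (i, k)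

lemma cornerNum_funfun_le {ι : Type} [Fintype ι] [DecidableEq ι] (A : Type) [AddCommGroup A]
    [Fintype A] (m n : ℕ) (h : Fintype.card ι * m ≤ n) :
    cornerNum (ι → Fin m → A) ≤ cornerNum (Fin n → A) :=
  (cornerNum_mono _ (uncurryHom_inj ι (Fin m) A)).trans
    (cornerNum_fun_mono A (by simpa using h))

lemma cornerNum_pow_fin (A : Type) [AddCommGroup A] [Fintype A] (m k n : ℕ) (h : k * m ≤ n) :
    cornerNum (Fin m → A) ^ k ≤ cornerNum (Fin n → A) := by
  have h1 := cornerNum_pow_le (G := Fin m → A) (Fin k)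
  rw [Fintype.card_fin] at h1
  exact h1.trans (cornerNum_funfun_le A m n (by simpa using h))

/-- a rigid set is at most e times the capacity power -/
theorem card_le_of_rigid {H : Type} [AddCommGroup H] [Fintype H] [DecidableEq H] (k : ℕ)
    (f : H →+ (Fin k → ZMod q)) (hf : Function.Injective f) {S : Finset (H × H)}
    (hS : Rigid S) : (S.card : ℝ) ≤ Real.exp 1 * cornerCap q ^ k := by
  classical
  have hΘ := one_le_cap q
  rcases Nat.eq_zero_or_pos S.card with h0 | h0
  · rw [h0]; push_cast; positivity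
  have h1 := factorial_le_cornerNum hS
  have h2 : cornerNum (S → H) ≤ cornerNum (S → Fin k → ZMod q) := by
    refine cornerNum_mono (f.compLeft S) ?_
    intro x y h
    funext i
    exact hf (congrFun h i)
  have h3 : cornerNum (S → Fin k → ZMod q) ≤ cornerNum (Fin (S.card * k) → ZMod q) :=
    cornerNum_funfun_le _ k _ (by simp)
  have h4 := cornerNum_fin_le q (S.card * k)
  have h5 : ((S.card).factorial : ℝ) ≤ cornerCap q ^ (S.card * k) :=
    le_trans (by exact_mod_cast h1.trans (h2.trans h3)) h4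
  have h6 := Real.pow_div_factorial_le_exp (S.card : ℝ) (by positivity) S.card
  rw [div_le_iff₀ (by positivity)] at h6
  have h7 : (S.card : ℝ) ^ S.card ≤ (Real.exp 1 * cornerCap q ^ k) ^ S.card := by
    rw [mul_pow, ← pow_mul, mul_comm k, ← Real.exp_nat_mul, mul_one]
    exact h6.trans (mul_le_mul_of_nonneg_left h5 (by positivity))
  exact le_of_pow_le_pow_left₀ h0.ne' (by positivity) h7

/-- the growth rate of a sequence squeezed between corner numbers and capacity powers -/
theorem tendsto_cap (a : ℕ → ℝ) (C : ℝ)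
    (hup : ∀ n : ℕ, a n ≤ C * ((n : ℝ) + 1) ^ 2 * cornerCap q ^ n)
    (hlow : ∀ n : ℕ, (cornerNum (Fin n → ZMod q) : ℝ) ≤ a (n + 1)) :
    Tendsto (fun n : ℕ => a n ^ ((1 : ℝ) / (n : ℝ))) atTop (𝓝 (cornerCap q)) := by
  have hΘ := one_le_cap q
  have ha : ∀ n, 1 ≤ a (n + 1) := fun n =>
    le_trans (by exact_mod_cast one_le_cornerNum _) (hlow n)
  have hroot : ∀ (n : ℕ) (x : ℝ), 0 ≤ x → (x ^ (n + 1)) ^ ((1 : ℝ) / ((n + 1 : ℕ) : ℝ)) = x := by
    intro n x hx
    rw [one_div]
    exact Real.pow_rpow_inv_natCast hx (Nat.succ_ne_zero n)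
  rw [← Filter.tendsto_add_atTop_iff_nat 1]
  refine tendsto_order.2 ⟨fun b hb => ?_, fun b hb => ?_⟩
  · rcases lt_or_ge b 1 with hb1 | hb1
    · exact Eventually.of_forall fun n =>
        lt_of_lt_of_le hb1 (Real.one_le_rpow (ha n) (by positivity))
    obtain ⟨m, hm⟩ := exists_lt_of_lt_ciSup hb
    set θ := (cornerNum (Fin (m + 1) → ZMod q) : ℝ) ^ ((1 : ℝ) / ((m : ℝ) + 1)) with hθ
    have hθ1 : 1 ≤ θ := hb1.trans hm.le
    have hθp : θ ^ (m + 1) = cornerNum (Fin (m + 1) → ZMod q) := root_pow m _ (by positivity)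
    have hlim : Tendsto (fun n : ℕ => (b / θ) ^ n) atTop (𝓝 0) :=
      tendsto_pow_atTop_nhds_zero_of_lt_one (by positivity)
        ((div_lt_one (by positivity)).2 hm)
    have hev := hlim.eventually (gt_mem_nhds (show (0 : ℝ) < 1 / (b * θ ^ m) by positivity))
    filter_upwards [hev] with n hn
    have h1 : θ ^ n ≤ θ ^ m * a (n + 1) := by
      have h2 := cornerNum_pow_fin (ZMod q) (m + 1) (n / (m + 1)) n (Nat.div_mul_le_self _ _)
      have h3 : (θ ^ (m + 1)) ^ (n / (m + 1)) ≤ a (n + 1) := by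
        rw [hθp]
        exact le_trans (by exact_mod_cast h2) (hlow n)
      have h4 : n ≤ m + (m + 1) * (n / (m + 1)) := by
        have := Nat.div_add_mod n (m + 1)
        have : n % (m + 1) < m + 1 := Nat.mod_lt n (Nat.succ_pos m)
        omega
      calc θ ^ n ≤ θ ^ (m + (m + 1) * (n / (m + 1))) := pow_le_pow_right₀ hθ1 h4
        _ = θ ^ m * (θ ^ (m + 1)) ^ (n / (m + 1)) := by rw [pow_add, pow_mul]
        _ ≤ θ ^ m * a (n + 1) := mul_le_mul_of_nonneg_left h3 (by positivity)
    have h5 : b ^ (n + 1) < a (n + 1) := by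
      rw [div_pow, div_lt_div_iff₀ (by positivity) (by positivity), one_mul] at hn
      have h6 : θ ^ m * b ^ (n + 1) < θ ^ m * a (n + 1) := by
        calc θ ^ m * b ^ (n + 1) = b ^ n * (b * θ ^ m) := by ring
          _ < θ ^ n := hn
          _ ≤ _ := h1
      exact lt_of_mul_lt_mul_left h6 (by positivity)
    calc b = (b ^ (n + 1)) ^ ((1 : ℝ) / ((n + 1 : ℕ) : ℝ)) := (hroot n b (by positivity)).symm
      _ < _ := Real.rpow_lt_rpow (by positivity) h5 (by positivity)
  · have hb0 : 0 < b := by linarith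
    have hlim : Tendsto (fun n : ℕ => (n : ℝ) ^ 2 * (cornerCap q / b) ^ n) atTop (𝓝 0) :=
      tendsto_pow_const_mul_const_pow_of_abs_lt_one 2 (by
        rw [abs_of_nonneg (by positivity)]
        exact (div_lt_one hb0).2 hb)
    have hlim2 := ((Filter.tendsto_add_atTop_iff_nat 1).2 hlim).const_mul (4 * |C|)
    rw [mul_zero] at hlim2
    have hev := hlim2.eventually (gt_mem_nhds (show (0 : ℝ) < 1 by positivity))
    filter_upwards [hev] with n hn
    have h5 : a (n + 1) < b ^ (n + 1) := by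
      have h6 := hup (n + 1)
      rw [div_pow, ← mul_assoc, ← mul_div_assoc, div_lt_one (by positivity)] at hn
      refine lt_of_le_of_lt (h6.trans ?_) hn
      refine mul_le_mul_of_nonneg_right ?_ (by positivity)
      push_cast
      have h7 : ((n : ℝ) + 1 + 1) ^ 2 ≤ 4 * ((n : ℝ) + 1) ^ 2 := by
        have : (0 : ℝ) ≤ n := by positivity
        nlinarith
      calc C * ((n : ℝ) + 1 + 1) ^ 2 ≤ |C| * ((n : ℝ) + 1 + 1) ^ 2 :=
            mul_le_mul_of_nonneg_right (le_abs_self C) (by positivity)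
        _ ≤ |C| * (4 * ((n : ℝ) + 1) ^ 2) := mul_le_mul_of_nonneg_left h7 (abs_nonneg C)
        _ = 4 * |C| * ((n : ℝ) + 1) ^ 2 := by ring
    calc a (n + 1) ^ ((1 : ℝ) / ((n + 1 : ℕ) : ℝ))
        < (b ^ (n + 1)) ^ ((1 : ℝ) / ((n + 1 : ℕ) : ℝ)) :=
          Real.rpow_lt_rpow (le_trans zero_le_one (ha n)) h5 (by positivity)
      _ = b := hroot n b hb0.le

end cap

end Pool.Agent.P.MP_95c763_co
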