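import Mathlib
import Pool.Agent.P.MP_95c763_co.Corner

set_option autoImplicit false

namespace Pool.Agent.P.MP_95c763_co

open Finset

section general

variable {α : Type} [DecidableEq α] {V : Finset α} {B : Finset (Finset α)}

lemma exists_minDefining (hB : IsSTS V B) :
    ∃ D, IsDefiningSet V B D ∧ D.card = minDefining V B :=
  Nat.sInf_mem (s := {k : ℕ | ∃ D : Finset (Finset α), IsDefiningSet V B D ∧ D.card = k})
    ⟨B.card, B, ⟨subset_rfl, fun _ hB' h => (hB'.eq_of_subset hB h).symm⟩, rfl⟩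

omit [DecidableEq α] in
lemma minDefining_le {D : Finset (Finset α)} (hD : IsDefiningSet V B D) :
    minDefining V B ≤ D.card :=
  Nat.sInf_le ⟨D, hD, rfl⟩

theorem excess_ge {H : Type} [AddCommGroup H] (F : Frame H B) (hB : IsSTS V B)
    {S : Finset (H × H)} (hS : Rigid S) : minDefining V B + S.card ≤ B.card := by
  have h1 := minDefining_le (F.defining_of_rigid hB S hS)
  have h2 : S.image F.blk ⊆ B := by
    intro b hb
    obtain ⟨p, -, rfl⟩ := Finset.mem_image.1 hb
    exact F.blk_mem p
  have h3 := Finset.card_sdiff_add_card_eq_card h2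
  rw [Finset.card_image_of_injective _ F.blk_inj] at h3
  omega

theorem excess_le {ι : Type} [Fintype ι] (H : ι → Type) [∀ i, AddCommGroup (H i)]
    [∀ i, Fintype (H i)] (F : ∀ i, Frame (H i) B) (hB : IsSTS V B)
    (cover : ∀ b ∈ B, ∃ i p, (F i).blk p = b) (M : ℝ)
    (hM : ∀ i (S : Finset (H i × H i)), Rigid S → (S.card : ℝ) ≤ M) :
    (B.card : ℝ) - minDefining V B ≤ Fintype.card ι * M := by
  classical
  obtain ⟨D, hD, hc⟩ := exists_minDefining hB
  let S : ∀ i, Finset (H i × H i) := fun i => Finset.univ.filter fun p => (F i).blk p ∉ D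
  have hS : ∀ i, Rigid (S i) := fun i =>
    (F i).rigid_of_defining hB hD (S i) fun p hp => (Finset.mem_filter.1 hp).2
  have hsub : B \ D ⊆ Finset.univ.biUnion fun i => (S i).image (F i).blk := by
    intro b hb
    obtain ⟨hb1, hb2⟩ := Finset.mem_sdiff.1 hb
    obtain ⟨i, p, rfl⟩ := cover b hb1
    exact Finset.mem_biUnion.2 ⟨i, Finset.mem_univ _,
      Finset.mem_image_of_mem _ (Finset.mem_filter.2 ⟨Finset.mem_univ _, hb2⟩)⟩
  have h1 : (B \ D).card ≤ ∑ i, (S i).card :=
    (Finset.card_le_card hsub).trans (Finset.card_biUnion_le.trans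
      (Finset.sum_le_sum fun i _ => Finset.card_image_le))
  have h2 := Finset.card_sdiff_add_card_eq_card hD.1
  have h3 : (B.card : ℝ) - minDefining V B = (B \ D).card := by
    rw [← hc, ← h2]; push_cast; ring
  rw [h3]
  calc ((B \ D).card : ℝ) ≤ ∑ i, ((S i).card : ℝ) := by exact_mod_cast h1
    _ ≤ ∑ _i : ι, M := Finset.sum_le_sum fun i _ => hM i _ (hS i)
    _ = Fintype.card ι * M := by simp

end general

section proj

variable {n : ℕ}

lemma two_self (v : Fin (n + 1) → ZMod 2) : v + v = 0 := by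
  funext i
  exact CharTwo.add_self_eq_zero (v i)

lemma mem_projLines {b : Finset (Fin (n + 1) → ZMod 2)} :
    b ∈ projLines n ↔ ∃ x y, x ≠ 0 ∧ y ≠ 0 ∧ x ≠ y ∧ b = {x, y, x + y} := by
  unfold projLines
  simp only [Finset.mem_image, Finset.mem_filter, Finset.mem_univ, true_and, Prod.exists]
  constructor
  · rintro ⟨x, y, ⟨h1, h2, h3⟩, rfl⟩
    exact ⟨x, y, h1, h2, h3, rfl⟩
  · rintro ⟨x, y, h1, h2, h3, rfl⟩
    exact ⟨x, y, ⟨h1, h2, h3⟩, rfl⟩

lemma proj_line_eq {x y u v : Fin (n + 1) → ZMod 2} (huv : u ≠ v)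
    (hu : u ∈ ({x, y, x + y} : Finset (Fin (n + 1) → ZMod 2)))
    (hv : v ∈ ({x, y, x + y} : Finset (Fin (n + 1) → ZMod 2))) :
    ({x, y, x + y} : Finset (Fin (n + 1) → ZMod 2)) = {u, v, u + v} := by
  have e1 : x + (x + y) = y := by rw [← add_assoc, two_self, zero_add]
  have e2 : y + (x + y) = x := by rw [add_comm x, ← add_assoc, two_self, zero_add]
  have e3 : x + y + x = y := (add_comm (x + y) x).trans e1
  have e4 : x + y + y = x := (add_comm (x + y) y).trans e2
  have e5 : y + x = x + y := add_comm _ _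
  simp only [Finset.mem_insert, Finset.mem_singleton] at hu hv
  rcases hu with rfl | rfl | rfl <;> rcases hv with rfl | rfl | rfl <;>
    first
      | exact absurd rfl huv
      | rfl
      | (simp only [e1, e2, e3, e4, e5]; ext w; simp only [Finset.mem_insert,
          Finset.mem_singleton]; tauto)

lemma add_ne_zero_two {x y : Fin (n + 1) → ZMod 2} (h : x ≠ y) : x + y ≠ 0 := by
  intro h0
  apply h
  have : x + y + y = y := by rw [h0, zero_add]
  rwa [add_assoc, two_self, add_zero] at this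

theorem proj_sts (n : ℕ) : IsSTS (projPoints n) (projLines n) := by
  refine ⟨fun b hb => ?_, fun x hx y hy hxy => ?_⟩
  · obtain ⟨x, y, h1, h2, h3, rfl⟩ := mem_projLines.1 hb
    refine ⟨fun u hu => ?_, Finset.card_eq_three.2 ⟨x, y, x + y, h3, ?_, ?_, rfl⟩⟩
    · simp only [Finset.mem_insert, Finset.mem_singleton] at hu
      refine Finset.mem_filter.2 ⟨Finset.mem_univ _, ?_⟩
      rcases hu with rfl | rfl | rfl
      · exact h1
      · exact h2
      · exact add_ne_zero_two h3
    · simpa using h2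
    · simpa using h1
  · refine ⟨{x, y, x + y}, ⟨mem_projLines.2 ⟨x, y, (Finset.mem_filter.1 hx).2,
      (Finset.mem_filter.1 hy).2, hxy, rfl⟩, by simp, by simp⟩, ?_⟩
    rintro b ⟨hb, hxb, hyb⟩
    obtain ⟨u, v, -, -, -, rfl⟩ := mem_projLines.1 hb
    exact proj_line_eq hxy hxb hyb

/-- a frame in the projective system given by two coordinates -/
def projFrame {H : Type} [AddCommGroup H] (f : H →+ (Fin (n + 1) → ZMod 2))
    (hf : Function.Injective f) (i j : Fin (n + 1)) (hij : i ≠ j) (hi : ∀ x, f x i = 0)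
    (hj : ∀ x, f x j = 0) : Frame H (projLines n) where
  r x := f x + Pi.single i 1
  c y := f y + Pi.single j 1
  s z := f z + Pi.single i 1 + Pi.single j 1
  r_inj := fun x y h => hf (add_right_cancel h)
  c_inj := fun x y h => hf (add_right_cancel h)
  s_inj := fun x y h => hf (add_right_cancel (add_right_cancel h))
  rc := fun x y h => by
    have := congrFun h i
    simp [hi, hij] at this
  rs := fun x y h => by
    have := congrFun h j
    simp [hj, hij.symm] at this
  cs := fun x y h => by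
    have := congrFun h i
    simp [hi, hij] at this
  mem := fun x y => by
    refine mem_projLines.2 ⟨f x + Pi.single i 1, f y + Pi.single j 1, fun h => ?_, fun h => ?_,
      fun h => ?_, ?_⟩
    · have := congrFun h i
      simp [hi] at this
    · have := congrFun h j
      simp [hj] at this
    · have := congrFun h i
      simp [hi, hij] at this
    · have : f (x + y) + Pi.single i 1 + Pi.single j 1 =
          f x + Pi.single i 1 + (f y + Pi.single j 1) := by
        rw [map_add]; abel
      rw [this]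

/-- the vectors vanishing at two coordinates -/
def ker2 (i j : Fin (n + 1)) : AddSubgroup (Fin (n + 1) → ZMod 2) where
  carrier := {x | x i = 0 ∧ x j = 0}
  zero_mem' := ⟨rfl, rfl⟩
  add_mem' := fun {a b} ha hb => ⟨by simp [ha.1, hb.1], by simp [ha.2, hb.2]⟩
  neg_mem' := fun {a} ha => ⟨by simp [ha.1], by simp [ha.2]⟩

theorem proj_upper (n : ℕ) :
    ((projLines n).card : ℝ) - minDefining (projPoints n) (projLines n) ≤
      Real.exp 1 * cornerCap 2 * ((n : ℝ) + 1) ^ 2 * cornerCap 2 ^ n := by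
  classical
  let F : ∀ p : {p : Fin (n + 1) × Fin (n + 1) // p.1 ≠ p.2},
      Frame (ker2 p.1.1 p.1.2) (projLines n) := fun p =>
    projFrame (ker2 p.1.1 p.1.2).subtype (AddSubgroup.subtype_injective _) p.1.1 p.1.2 p.2
      (fun x => x.2.1) (fun x => x.2.2)
  have base : ∀ (u v : Fin (n + 1) → ZMod 2) (i j : Fin (n + 1)), u i = 1 → u j = 0 → v i = 0 →
      v j = 1 → ∃ p q, (F p).blk q = {u, v, u + v} := by
    intro u v i j h1 h2 h3 h4
    have hij : i ≠ j := by
      rintro rfl
      rw [h1] at h2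
      exact one_ne_zero h2
    refine ⟨⟨(i, j), hij⟩, (⟨u - Pi.single i 1, by simp [h1], by simp [h2, hij.symm]⟩,
      ⟨v - Pi.single j 1, by simp [h3, hij], by simp [h4]⟩), ?_⟩
    change ({u - Pi.single i 1 + Pi.single i 1, v - Pi.single j 1 + Pi.single j 1,
      (u - Pi.single i 1 + (v - Pi.single j 1)) + Pi.single i 1 + Pi.single j 1} :
        Finset (Fin (n + 1) → ZMod 2)) = _
    have : (u - Pi.single i 1 + (v - Pi.single j 1)) + Pi.single i 1 + Pi.single j 1 = u + v := by
      abel
    rw [this, sub_add_cancel, sub_add_cancel]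
  have z2 : ∀ a : ZMod 2, a ≠ 0 → a = 1 := by decide
  have h11 : (1 : ZMod 2) + 1 = 0 := by decide
  have cover : ∀ b ∈ projLines n, ∃ p q, (F p).blk q = b := by
    intro b hb
    obtain ⟨x, y, hx, hy, hxy, rfl⟩ := mem_projLines.1 hb
    have hz := add_ne_zero_two hxy
    have n1 : x ≠ x + y := by simpa using hy
    have n2 : y ≠ x + y := by simpa using hx
    obtain ⟨i, hi⟩ := Function.ne_iff.1 hx
    have hi1 := z2 _ hi
    by_cases hyi : y i = 0
    · obtain ⟨j, hj⟩ := Function.ne_iff.1 hy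
      have hj1 := z2 _ hj
      by_cases hxj : x j = 0
      · exact base x y i j hi1 hxj hyi hj1
      · rw [proj_line_eq (u := x + y) (v := y) n2.symm (by simp) (by simp)]
        exact base _ _ i j (by simp [hi1, hyi]) (by simp [z2 _ hxj, hj1, h11]) hyi hj1
    · have hyi1 := z2 _ hyi
      obtain ⟨j, hj⟩ := Function.ne_iff.1 hz
      have hj1 := z2 _ hj
      by_cases hxj : x j = 0
      · rw [proj_line_eq (u := x) (v := x + y) n1 (by simp) (by simp)]
        exact base _ _ i j hi1 hxj (by simp [hi1, hyi1, h11]) hj1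
      · have hyj : y j = 0 := by
          by_contra h
          apply hj
          simp [z2 _ hxj, z2 _ h, h11]
        rw [proj_line_eq (u := y) (v := x + y) n2 (by simp) (by simp)]
        exact base _ _ i j hyi1 hyj (by simp [hi1, hyi1, h11]) hj1
  have h := excess_le (fun p : {p : Fin (n + 1) × Fin (n + 1) // p.1 ≠ p.2} => ker2 p.1.1 p.1.2)
    F (proj_sts n) cover (Real.exp 1 * cornerCap 2 ^ (n + 1))
    (fun p S hS => card_le_of_rigid 2 (n + 1) (ker2 p.1.1 p.1.2).subtype
      (AddSubgroup.subtype_injective _) hS)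
  refine h.trans ?_
  have hc : (Fintype.card {p : Fin (n + 1) × Fin (n + 1) // p.1 ≠ p.2} : ℝ) ≤ ((n : ℝ) + 1) ^ 2 := by
    have := Fintype.card_subtype_le (fun p : Fin (n + 1) × Fin (n + 1) => p.1 ≠ p.2)
    rw [Fintype.card_prod, Fintype.card_fin] at this
    have h2 : ((n : ℝ) + 1) ^ 2 = (((n + 1) * (n + 1) : ℕ) : ℝ) := by push_cast; ring
    rw [h2]
    exact_mod_cast this
  have hΘ := one_le_cap 2
  calc _ ≤ ((n : ℝ) + 1) ^ 2 * (Real.exp 1 * cornerCap 2 ^ (n + 1)) :=
        mul_le_mul_of_nonneg_right hc (by positivity)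
    _ = _ := by ring

theorem proj_rigid (n : ℕ) {S : Finset ((Fin n → ZMod 2) × (Fin n → ZMod 2))} (hS : Rigid S) :
    minDefining (projPoints (n + 1)) (projLines (n + 1)) + S.card ≤ (projLines (n + 1)).card := by
  let e : Fin n ↪ Fin (n + 2) := ⟨fun k => k.succ.succ, fun a b h => by simpa using h⟩
  have h0 : ∀ x, extHom (ZMod 2) e x 0 = 0 := fun x =>
    Function.extend_apply' _ _ _ (by
      rintro ⟨k, hk⟩
      exact Fin.succ_ne_zero k.succ hk)
  have h1 : ∀ x, extHom (ZMod 2) e x 1 = 0 := fun x =>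
    Function.extend_apply' _ _ _ (by
      rintro ⟨k, hk⟩
      have : k.succ.succ = (0 : Fin (n + 1)).succ := hk
      exact Fin.succ_ne_zero _ (Fin.succ_injective _ this))
  exact excess_ge (projFrame (extHom (ZMod 2) e) (extHom_inj _ e) 0 1 (by simp) h0 h1)
    (proj_sts (n + 1)) hS

end proj

section aff

variable {n : ℕ}

lemma three_self (v : Fin n → ZMod 3) : -(v + v) = v := by
  funext i
  have : ∀ a : ZMod 3, -(a + a) = a := by decide
  exact this (v i)

lemma mem_affLines {b : Finset (Fin n → ZMod 3)} :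
    b ∈ affLines n ↔ ∃ x y, x ≠ y ∧ b = {x, y, -(x + y)} := by
  unfold affLines
  simp only [Finset.mem_image, Finset.mem_filter, Finset.mem_univ, true_and, Prod.exists]
  constructor
  · rintro ⟨x, y, h, rfl⟩
    exact ⟨x, y, h, rfl⟩
  · rintro ⟨x, y, h, rfl⟩
    exact ⟨x, y, h, rfl⟩

lemma aff_line_eq {x y u v : Fin n → ZMod 3} (huv : u ≠ v)
    (hu : u ∈ ({x, y, -(x + y)} : Finset (Fin n → ZMod 3)))
    (hv : v ∈ ({x, y, -(x + y)} : Finset (Fin n → ZMod 3))) :
    ({x, y, -(x + y)} : Finset (Fin n → ZMod 3)) = {u, v, -(u + v)} := by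
  have e1 : -(x + -(x + y)) = y := by abel
  have e2 : -(y + -(x + y)) = x := by abel
  have e3 : -(-(x + y) + x) = y := by abel
  have e4 : -(-(x + y) + y) = x := by abel
  have e5 : y + x = x + y := add_comm _ _
  simp only [Finset.mem_insert, Finset.mem_singleton] at hu hv
  rcases hu with rfl | rfl | rfl <;> rcases hv with rfl | rfl | rfl <;>
    first
      | exact absurd rfl huv
      | rfl
      | (simp only [e1, e2, e3, e4, e5]; ext w; simp only [Finset.mem_insert,
          Finset.mem_singleton]; tauto)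

lemma aff_ne_left {x y : Fin n → ZMod 3} (h : x ≠ y) : x ≠ -(x + y) := by
  intro h0
  apply h
  have h1 : -(x + x) = -(x + y) := by rw [three_self]; exact h0
  exact add_left_cancel (neg_injective h1)

lemma aff_ne_right {x y : Fin n → ZMod 3} (h : x ≠ y) : y ≠ -(x + y) := by
  rw [add_comm]
  exact aff_ne_left h.symm

theorem aff_sts (n : ℕ) : IsSTS Finset.univ (affLines n) := by
  refine ⟨fun b hb => ?_, fun x _ y _ hxy => ?_⟩
  · obtain ⟨x, y, h, rfl⟩ := mem_affLines.1 hb
    exact ⟨Finset.subset_univ _,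
      Finset.card_eq_three.2 ⟨x, y, -(x + y), h, aff_ne_left h, aff_ne_right h, rfl⟩⟩
  · refine ⟨{x, y, -(x + y)}, ⟨mem_affLines.2 ⟨x, y, hxy, rfl⟩, by simp, by simp⟩, ?_⟩
    rintro b ⟨hb, hxb, hyb⟩
    obtain ⟨u, v, -, rfl⟩ := mem_affLines.1 hb
    exact aff_line_eq hxy hxb hyb

/-- a frame in the affine system given by one coordinate -/
def affFrame {H : Type} [AddCommGroup H] (f : H →+ (Fin n → ZMod 3))
    (hf : Function.Injective f) (i : Fin n) (hi : ∀ x, f x i = 0) : Frame H (affLines n) where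
  r x := f x
  c y := f y + Pi.single i 1
  s z := -(f z + Pi.single i 1)
  r_inj := hf
  c_inj := fun x y h => hf (add_right_cancel h)
  s_inj := fun x y h => hf (add_right_cancel (neg_injective h))
  rc := fun x y h => by
    have := congrFun h i
    simp [hi] at this
  rs := fun x y h => by
    have := congrFun h i
    simp [hi] at this
  cs := fun x y h => by
    have := congrFun h i
    simp only [Pi.add_apply, Pi.neg_apply, hi, Pi.single_eq_same, zero_add] at this
    exact absurd this (by decide)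
  mem := fun x y => by
    refine mem_affLines.2 ⟨f x, f y + Pi.single i 1, fun h => ?_, ?_⟩
    · have := congrFun h i
      simp [hi] at this
    · rw [map_add, add_assoc]

/-- the vectors vanishing at one coordinate -/
def ker1 (i : Fin n) : AddSubgroup (Fin n → ZMod 3) where
  carrier := {x | x i = 0}
  zero_mem' := rfl
  add_mem' := fun {a b} ha hb => by
    have h1 : a i = 0 := ha
    have h2 : b i = 0 := hb
    change a i + b i = 0
    rw [h1, h2, add_zero]
  neg_mem' := fun {a} ha => by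
    have h1 : a i = 0 := ha
    change -(a i) = 0
    rw [h1, neg_zero]

theorem aff_upper (n : ℕ) :
    ((affLines n).card : ℝ) - minDefining Finset.univ (affLines n) ≤
      Real.exp 1 * ((n : ℝ) + 1) ^ 2 * cornerCap 3 ^ n := by
  classical
  let F : ∀ i : Fin n, Frame (ker1 i) (affLines n) := fun i =>
    affFrame (ker1 i).subtype (AddSubgroup.subtype_injective _) i (fun x => x.2)
  have base : ∀ (u v : Fin n → ZMod 3) (i : Fin n), u i = 0 → v i = 1 →
      ∃ p q, (F p).blk q = {u, v, -(u + v)} := by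
    intro u v i h1 h2
    refine ⟨i, (⟨u, h1⟩, ⟨v - Pi.single i 1, show (v - Pi.single i 1 : Fin n → ZMod 3) i = 0 by
      simp [h2]⟩), ?_⟩
    change ({u, v - Pi.single i 1 + Pi.single i 1,
      -((u + (v - Pi.single i 1)) + Pi.single i 1)} : Finset (Fin n → ZMod 3)) = _
    rw [add_assoc, sub_add_cancel]
  have z3 : ∀ a b : ZMod 3, a ≠ b → (a = 0 ∧ b = 1) ∨ (b = 0 ∧ a = 1) ∨ (a = 0 ∧ -(a + b) = 1) ∨
      (b = 0 ∧ -(a + b) = 1) ∨ (-(a + b) = 0 ∧ a = 1) ∨ (-(a + b) = 0 ∧ b = 1) := by decide
  have cover : ∀ b ∈ affLines n, ∃ p q, (F p).blk q = b := by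
    intro b hb
    obtain ⟨x, y, hxy, rfl⟩ := mem_affLines.1 hb
    have n1 := aff_ne_left hxy
    have n2 := aff_ne_right hxy
    obtain ⟨i, hi⟩ := Function.ne_iff.1 hxy
    rcases z3 _ _ hi with ⟨a, b⟩ | ⟨a, b⟩ | ⟨a, b⟩ | ⟨a, b⟩ | ⟨a, b⟩ | ⟨a, b⟩
    · exact base x y i a b
    · rw [aff_line_eq (u := y) (v := x) hxy.symm (by simp) (by simp)]
      exact base _ _ i a b
    · rw [aff_line_eq (u := x) (v := -(x + y)) n1 (by simp) (by simp)]
      exact base _ _ i a b
    · rw [aff_line_eq (u := y) (v := -(x + y)) n2 (by simp) (by simp)]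
      exact base _ _ i a b
    · rw [aff_line_eq (u := -(x + y)) (v := x) n1.symm (by simp) (by simp)]
      exact base _ _ i a b
    · rw [aff_line_eq (u := -(x + y)) (v := y) n2.symm (by simp) (by simp)]
      exact base _ _ i a b
  have h := excess_le (fun i : Fin n => ker1 i) F (aff_sts n) cover
    (Real.exp 1 * cornerCap 3 ^ n)
    (fun i S hS => card_le_of_rigid 3 n (ker1 i).subtype (AddSubgroup.subtype_injective _) hS)
  refine h.trans ?_
  have hΘ := one_le_cap 3
  have hc : (Fintype.card (Fin n) : ℝ) ≤ ((n : ℝ) + 1) ^ 2 := by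
    rw [Fintype.card_fin]
    have : (0 : ℝ) ≤ n := by positivity
    nlinarith
  calc _ ≤ ((n : ℝ) + 1) ^ 2 * (Real.exp 1 * cornerCap 3 ^ n) :=
        mul_le_mul_of_nonneg_right hc (by positivity)
    _ = _ := by ring

theorem aff_rigid (n : ℕ) {S : Finset ((Fin n → ZMod 3) × (Fin n → ZMod 3))} (hS : Rigid S) :
    minDefining Finset.univ (affLines (n + 1)) + S.card ≤ (affLines (n + 1)).card := by
  let e : Fin n ↪ Fin (n + 1) := ⟨fun k => k.succ, Fin.succ_injective _⟩
  have h0 : ∀ x, extHom (ZMod 3) e x 0 = 0 := fun x =>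
    Function.extend_apply' _ _ _ (by
      rintro ⟨k, hk⟩
      exact Fin.succ_ne_zero _ hk)
  exact excess_ge (affFrame (extHom (ZMod 3) e) (extHom_inj _ e) 0 h0) (aff_sts (n + 1)) hS

end aff

end Pool.Agent.P.MP_95c763_co
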