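import Mathlib
import Pool.Agent.P.MP_95c763_co.Geom

set_option autoImplicit false

namespace Pool.Agent.P.MP_95c763_co

open Finset

theorem rigid_of_weights {H : Type} [AddCommGroup H] (S : Finset (H × H))
    (w1 w2 w3 : H × H → ℤ) (h0 : ∀ p ∈ S, w1 p + w2 p + w3 p = 0)
    (hpos : ∀ x y d : H, d ≠ 0 → (x, y) ∈ S → (x, y + d) ∈ S → (x + d, y) ∈ S →
      0 < w1 (x, y) + w2 (x, y + d) + w3 (x + d, y))
    (ι : Type) [Fintype ι] [DecidableEq ι] {G : Type} [AddCommGroup G] (f : (ι → H) →+ G)
    (hf : Function.Injective f) :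
    ∃ T : Finset (G × G), Rigid T ∧ T.card = S.card ^ Fintype.card ι := by
  classical
  let φ : (ι → H × H) → G × G := fun u => (f fun c => (u c).1, f fun c => (u c).2)
  have hφ : Function.Injective φ := by
    intro u v huv
    funext c
    exact Prod.ext (congrFun (hf (congrArg Prod.fst huv)) c)
      (congrFun (hf (congrArg Prod.snd huv)) c)
  refine ⟨(Fintype.piFinset fun _ : ι => S).image φ, ?_, ?_⟩
  swap
  · rw [Finset.card_image_of_injective _ hφ, Fintype.card_piFinset, Finset.prod_const]
    rfl
  set T := (Fintype.piFinset fun _ : ι => S).image φ with hT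
  have hu : ∀ τ : T, ∃ u : ι → H × H, (∀ c, u c ∈ S) ∧ φ u = τ.1 := by
    intro τ
    obtain ⟨u, hu, e⟩ := Finset.mem_image.1 τ.2
    exact ⟨u, Fintype.mem_piFinset.1 hu, e⟩
  choose u huS hue using hu
  have e1 : ∀ τ : T, τ.1.1 = f fun c => (u τ c).1 := fun τ => by rw [← hue τ]
  have e2 : ∀ τ : T, τ.1.2 = f fun c => (u τ c).2 := fun τ => by rw [← hue τ]
  intro p q t h1 h2 h3
  have a1 : ∀ i c, (u (p i) c).1 = (u (q i) c).1 := fun i c => by
    have := h1 i
    rw [e1, e1] at this
    exact congrFun (hf this) c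
  have a2 : ∀ i c, (u (p i) c).2 = (u (t i) c).2 := fun i c => by
    have := h2 i
    rw [e2, e2] at this
    exact congrFun (hf this) c
  have a3 : ∀ i c, (u (q i) c).1 + (u (q i) c).2 = (u (t i) c).1 + (u (t i) c).2 := fun i c => by
    have := h3 i
    rw [e1, e1, e2, e2, ← map_add, ← map_add] at this
    exact congrFun (hf this) c
  have key : ∀ i c, (u (p i) c).1 = (u (t i) c).1 ∧
        w1 (u (p i) c) + w2 (u (q i) c) + w3 (u (t i) c) = 0 ∨
      0 < w1 (u (p i) c) + w2 (u (q i) c) + w3 (u (t i) c) := by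
    intro i c
    have b1 := a1 i c
    have b2 := a2 i c
    have b3 := a3 i c
    have m1 := huS (p i) c
    have m2 := huS (q i) c
    have m3 := huS (t i) c
    generalize u (p i) c = P at *
    generalize u (q i) c = Q at *
    generalize u (t i) c = R at *
    obtain ⟨x, y⟩ := P
    obtain ⟨x1, y1⟩ := Q
    obtain ⟨x2, y2⟩ := R
    simp only at b1 b2 b3
    subst b1 b2
    obtain ⟨d, rfl⟩ : ∃ d, x2 = x + d := ⟨x2 - x, by abel⟩
    have : y1 = y + d := by
      have h4 : x + y1 = x + (y + d) := by rw [b3]; abel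
      exact add_left_cancel h4
    subst this
    by_cases hd : d = 0
    · subst hd
      left
      simp only [add_zero]
      exact ⟨trivial, h0 _ m1⟩
    · right
      exact hpos x y d hd m1 m2 m3
  have hsum : ∑ i, ∑ c, (w1 (u (p i) c) + w2 (u (q i) c) + w3 (u (t i) c)) = 0 := by
    simp only [Finset.sum_add_distrib]
    rw [Equiv.sum_comp p (fun τ => ∑ c, w1 (u τ c)), Equiv.sum_comp q (fun τ => ∑ c, w2 (u τ c)),
      Equiv.sum_comp t (fun τ => ∑ c, w3 (u τ c))]
    simp only [← Finset.sum_add_distrib]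
    exact Finset.sum_eq_zero fun τ _ => Finset.sum_eq_zero fun c _ => h0 _ (huS τ c)
  have hnn : ∀ i c, 0 ≤ w1 (u (p i) c) + w2 (u (q i) c) + w3 (u (t i) c) := fun i c =>
    (key i c).elim (fun h => h.2.ge) le_of_lt
  intro i
  rw [e1, e1]
  congr 1
  funext c
  rcases key i c with h | h
  · exact h.1
  · have h5 := (Finset.sum_eq_zero_iff_of_nonneg
      (fun i _ => Finset.sum_nonneg fun c _ => hnn i c)).1 hsum i (Finset.mem_univ _)
    have h6 := (Finset.sum_eq_zero_iff_of_nonneg (fun c _ => hnn i c)).1 h5 c (Finset.mem_univ _)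
    exact absurd h6 h.ne'

/-- binary value of a vector of length four -/
def enc (x : Fin 4 → ZMod 2) : ℕ := (x 0).val + 2 * (x 1).val + 4 * (x 2).val + 8 * (x 3).val

/-- the table of levels and forced edges, nine bits per cell -/
def big : ℕ := 18540291696097706887358332009257528955356013954092761802197825726823158034200378776549405586510048151766084387431438496948183546529194771666690061594036531378905996739820884120916891698324381669746070916173241050999436528729681490534811907483492758861045779287113592373866495603545327619858081961754993630020672789440689848099773028523558336396203801582497359297002626813639320443057937035202689181844465024611477960686510255191372737735169719270288454609101755250118968314690352586765530427711959170430204547591342592089784319605647453682131970295682999860022155034171077315334311563300601375485147551348861437720533950570335479059628089166525473681130693530012748665557888569171797504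

def code (p : (Fin 4 → ZMod 2) × (Fin 4 → ZMod 2)) : ℕ :=
  big / 2 ^ (9 * (16 * enc p.1 + enc p.2)) % 512

def wt (j : ℕ) (p : (Fin 4 → ZMod 2) × (Fin 4 → ZMod 2)) : ℤ :=
  if code p % 3 = j then -2 * (3 ^ (code p / 3) : ℕ) else (3 ^ (code p / 3) : ℕ)

def cells : Finset ((Fin 4 → ZMod 2) × (Fin 4 → ZMod 2)) :=
  Finset.univ.filter fun p => code p ≠ 0

theorem cells_card : cells.card = 138 := by decide +kernel

theorem cells_pos : ∀ x y d : Fin 4 → ZMod 2, d ≠ 0 → code (x, y) ≠ 0 → code (x, y + d) ≠ 0 →
    code (x + d, y) ≠ 0 → 0 < wt 0 (x, y) + wt 1 (x, y + d) + wt 2 (x + d, y) := by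
  decide +kernel

theorem wt_sum (p : (Fin 4 → ZMod 2) × (Fin 4 → ZMod 2)) : wt 0 p + wt 1 p + wt 2 p = 0 := by
  unfold wt
  have : code p % 3 = 0 ∨ code p % 3 = 1 ∨ code p % 3 = 2 := by omega
  rcases this with h | h | h <;> simp [h] <;> ring

theorem exists_rigid_138 (n : ℕ) : ∃ T : Finset ((Fin n → ZMod 2) × (Fin n → ZMod 2)),
    Rigid T ∧ T.card = 138 ^ (n / 4) := by
  obtain ⟨e⟩ : Nonempty (Fin (n / 4) × Fin 4 ↪ Fin n) :=
    Function.Embedding.nonempty_of_card_le (by simpa using Nat.div_mul_le_self n 4)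
  have h := rigid_of_weights cells (wt 0) (wt 1) (wt 2) (fun p _ => wt_sum p)
    (fun x y d hd h1 h2 h3 => cells_pos x y d hd (Finset.mem_filter.1 h1).2
      (Finset.mem_filter.1 h2).2 (Finset.mem_filter.1 h3).2) (Fin (n / 4))
    ((extHom (ZMod 2) e).comp (uncurryHom _ _ _))
    ((extHom_inj _ e).comp (uncurryHom_inj _ _ _))
  rwa [cells_card, Fintype.card_fin] at h

end Pool.Agent.P.MP_95c763_co
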